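import Pool.Agent.Lib.MP_e9e3a0_an.AllFacts

set_option autoImplicit false

namespace Pool.Agent.Variants.MP_e9e3a0_an.Transfer

open Pool.Agent.Lib.MP_e9e3a0_an MvPolynomial

/-- A sufficient condition, independent of `α`, for a curve to be the zero set of an optimal
approximant of degree `n` in `D_α` of the bidisk. -/
theorem result (α : ℝ) (n : ℕ) (p : MvPolynomial (Fin 2) ℂ) (h0 : 0 < p.totalDegree)
    (hn : p.totalDegree ≤ n)
    (h : Z p ∈ Curves 0 n ∨ ∀ z : Fin 2 → ℂ, (∀ i, ‖z i‖ ≤ 1) → eval z p ≠ 0) :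
    Z p ∈ Curves α n := by
  obtain ⟨-, h2, h3, -⟩ := allFacts
  rcases h with h | h
  · exact h2 α n h
  · exact h2 α n (h3 n p h0 hn h)

end Pool.Agent.Variants.MP_e9e3a0_an.Transfer
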